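import Mathlib
import Pool.Agent.R658.CN.Defs
import Pool.Agent.R658.CN.Stmts
import Pool.Agent.R658.CN.Main
import Pool.Agent.R658.CN.TE
import Pool.Agent.R658.CN.TEa
import Pool.Agent.R658.CN.Char
import Pool.Agent.R658.CN.TM
import Pool.Agent.R658.CN.TN
import Pool.Agent.R658.CN.TF
import Pool.Agent.R658.CN.TDiv
import Pool.Agent.R658.CN.TD
import Pool.Agent.R658.CN.TC

/-!
# MP_0bb520_al: completions of precompact sequentially complete locally minimal nilpotent groups

`SeqComplete` and `LocallyMinimal` are defined in `Pool.Agent.R658.CN.Defs`.
A compact Hausdorff group `K` with a dense topological embedding `i : G → K` is the same thing as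
the Raikov completion of a precompact group `G`.
-/

namespace Pool.Agent.Results.MP_0bb520_al.ComponentTrivial

open Topology R658.CN

universe u

theorem result {G K : Type u} [Group G] [TopologicalSpace G] [IsTopologicalGroup G] [Group K]
    [TopologicalSpace K] [IsTopologicalGroup K] [CompactSpace K] [T2Space K] (i : G →* K)
    (hi : IsEmbedding i) (hd : DenseRange i) (hnil : Group.IsNilpotent G) (hseq : SeqComplete G)
    (hloc : LocallyMinimal G) (hc : connectedComponent (1 : G) = {1}) :
    connectedComponent (1 : K) = {1} :=
  main taskM taskN (taskF taskChar) (taskDiv taskChar) taskC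
    (taskE taskChar taskD (taskEa taskChar)) i hi hd hnil hseq hloc hc

end Pool.Agent.Results.MP_0bb520_al.ComponentTrivial
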